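import Pool.Agent.Lib.MP_6b611a_co.KS.Trans

/-!
# Disjoint perfect matchings in `r`-edge-connected `r`-graphs with few disjoint nearly tight odd sets
-/

set_option autoImplicit false

namespace Pool.Agent.Results.MP_6b611a_co.ManyMatchings

/-- The number of the edges which have one end in `X` and the other end outside `X`. -/
noncomputable def leaving {V E : Type} (ends : E → Sym2 V) (X : Finset V) : ℕ :=
  Nat.card {e : E // ∃ a b : V, a ∈ X ∧ b ∉ X ∧ a ∈ ends e ∧ b ∈ ends e}

/-- The multigraph is loopless and `r`-regular, and at least `r` edges leave every vertex set of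
odd size and every nonempty proper vertex set: an `r`-edge-connected `r`-graph. -/
structure ConnectedRGraph (r : ℕ) {V E : Type} [Fintype V] (ends : E → Sym2 V) : Prop where
  /-- there are no loops -/
  loopless : ∀ e : E, ¬ (ends e).IsDiag
  /-- every vertex has degree `r` -/
  regular : ∀ v : V, Nat.card {e : E // v ∈ ends e} = r
  /-- at least `r` edges leave every odd set -/
  odd_cuts : ∀ X : Finset V, Odd X.card → r ≤ leaving ends X
  /-- at least `r` edges leave every nonempty proper set -/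
  cuts : ∀ X : Finset V, X.Nonempty → X ≠ Finset.univ → r ≤ leaving ends X

/-- Let `G` be an `r`-edge-connected `r`-graph with at most `μ` parallel edges between any two
vertices, `k ≥ 2` and `2 ^ ℓ ≥ max (2 |V|) k`.  Suppose that every family of pairwise disjoint odd
sets `X` with `|X| ≥ 3`, `2 μ |X| ≥ r` and fewer than `r + 24 k ℓ` leaving edges has at most `τ`
members.  If `r ≥ 8 k ℓ (τ + 8)`, then `G` has `k` pairwise disjoint perfect matchings. -/
theorem result (k ℓ μ τ r : ℕ) (hk : 2 ≤ k) {V E : Type} [Fintype V] [Fintype E]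
    (ends : E → Sym2 V) (hG : ConnectedRGraph r ends)
    (hμ : ∀ z : Sym2 V, Nat.card {e : E // ends e = z} ≤ μ)
    (hℓ : 2 * Fintype.card V ≤ 2 ^ ℓ) (hkℓ : k ≤ 2 ^ ℓ)
    (hτ : ∀ 𝒩 : Finset (Finset V),
      (∀ X ∈ 𝒩, Odd X.card ∧ 3 ≤ X.card ∧ r ≤ 2 * μ * X.card ∧
        leaving ends X < r + 24 * k * ℓ) →
      (∀ X ∈ 𝒩, ∀ Y ∈ 𝒩, X ≠ Y → Disjoint X Y) → 𝒩.card ≤ τ)
    (hr : 8 * k * ℓ * (τ + 8) ≤ r) :
    ∃ M : Fin k → Finset E, (∀ i j, i ≠ j → Disjoint (M i) (M j)) ∧
      ∀ i, ∀ v : V, ∃! e : E, e ∈ M i ∧ v ∈ ends e :=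
  Pool.Agent.Lib.MP_6b611a_co.bounded k ℓ μ τ r hk ends hG.loopless hG.regular hG.odd_cuts
    hG.cuts hμ hℓ hkℓ hτ hr

end Pool.Agent.Results.MP_6b611a_co.ManyMatchings
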