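import Pool.Agent.Lib.MP_6b611a_co.SP.Contract

/-!
# Disjoint perfect matchings in `r`-edge-connected multigraphs which are spliced from small pieces

At least `r` edges leave every nonempty proper vertex set.  Some of the pieces have at most
`2 ^ (ℓ - 1)` vertices, where `64 k ℓ ≤ r`; the number of the pieces is arbitrary.
-/

set_option autoImplicit false

namespace Pool.Agent.Results.MP_6b611a_co.Splices

/-- The number of the edges which have one end in `X` and the other end outside `X`. -/
noncomputable def leaving {V E : Type} (ends : E → Sym2 V) (X : Set V) : ℕ :=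
  Nat.card {e : E // ∃ a b : V, a ∈ X ∧ b ∉ X ∧ a ∈ ends e ∧ b ∈ ends e}

/-- A finite loopless multigraph of positive even order such that at least `r` edges leave every
nonempty proper vertex set. -/
structure Conn (r : ℕ) {V E : Type} (ends : E → Sym2 V) : Prop where
  /-- there are finitely many vertices -/
  finite_vertices : Finite V
  /-- there are finitely many edges -/
  finite_edges : Finite E
  /-- there is a vertex -/
  nonempty : Nonempty V
  /-- the number of the vertices is even -/
  even : Even (Nat.card V)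
  /-- there are no loops -/
  loopless : ∀ e : E, ¬ (ends e).IsDiag
  /-- at least `r` edges leave every nonempty proper set -/
  cuts : ∀ X : Set V, X.Nonempty → X ≠ Set.univ → r ≤ leaving ends X

/-- The vertices after the contraction of `X` to one vertex: `none` is the new vertex. -/
abbrev ContractedVertex {V : Type} (X : Set V) : Type := Option {v : V // v ∉ X}

/-- The edges after the contraction of `X`: the edges with both ends in `X` disappear. -/
abbrev ContractedEdge {V E : Type} (ends : E → Sym2 V) (X : Set V) : Type :=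
  {e : E // ¬ ∀ v ∈ ends e, v ∈ X}

open scoped Classical in
/-- The vertex of the contracted multigraph which the vertex `v` becomes. -/
noncomputable def image {V : Type} (X : Set V) (v : V) : ContractedVertex X :=
  if h : v ∈ X then none else some ⟨v, h⟩

/-- The multigraph which is obtained by the contraction of `X` to one vertex. -/
noncomputable def contract {V E : Type} (ends : E → Sym2 V) (X : Set V) :
    ContractedEdge ends X → Sym2 (ContractedVertex X) :=
  fun e => (ends e.1).map (image X)

/-- Every edge `e` is in a perfect matching `M` which avoids any given set `F` of fewer than `J`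
edges with `e ∉ F`. -/
def StaysCovered (J : ℕ) {V E : Type} (ends : E → Sym2 V) : Prop :=
  ∀ F : Finset E, F.card < J → ∀ e ∉ F, ∃ M : Finset E, e ∈ M ∧ Disjoint M F ∧
    ∀ x : V, ∃! y : E, y ∈ M ∧ x ∈ ends y

/-- The class `𝒞`. -/
inductive Built (r k ℓ : ℕ) : ∀ {V E : Type}, (E → Sym2 V) → Prop
  /-- (i) the edge set is a disjoint union of `r` perfect matchings -/
  | colourable {V E : Type} (ends : E → Sym2 V) (hG : Conn r ends) (c : E → Fin r)
      (hc : ∀ j : Fin r, ∀ x : V, ∃! e : E, c e = j ∧ x ∈ ends e) : Built r k ℓ ends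
  /-- (ii) `r`-regular, of any order, such that every odd set is tight or expands -/
  | expanding {V E : Type} (ends : E → Sym2 V) (hG : Conn r ends)
      (hreg : ∀ v : V, Nat.card {e : E // v ∈ ends e} = r)
      (hexp : ∀ X : Set V, Odd X.ncard → 3 ≤ X.ncard → 2 * X.ncard ≤ Nat.card V →
        leaving ends X = r ∨ r + (k - 1) * (X.ncard - 1) ≤ leaving ends X) : Built r k ℓ ends
  /-- (iii) nearly regular with a gap for the odd cuts, apart from tight odd sets in the regular
  case `D = 0`; in the case `D > 0` the number of the edges inside the complement of every half `S`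
  is at least the minimum of `k` and the number of the edges inside `S` at any vertex of `S` -/
  | gap {V E : Type} (ends : E → Sym2 V) (hG : Conn r ends) (hV : 2 * Nat.card V ≤ 2 ^ ℓ)
      (D : ℕ) (hr : 64 * k * ℓ + 5 * D ≤ r) (hD : 2 * Nat.card E ≤ r * Nat.card V + D)
      (hgap : ∀ X : Set V, Odd X.ncard → 3 ≤ X.ncard → X.ncard + 3 ≤ Nat.card V →
        (D = 0 ∧ leaving ends X = r) ∨ r + 24 * k * ℓ + 3 * D ≤ leaving ends X)
      (hloc : 0 < D → ∀ S : Set V, 2 * S.ncard = Nat.card V → ∀ v ∈ S,
        min k (Nat.card {e : E // v ∈ ends e ∧ ∀ x ∈ ends e, x ∈ S}) ≤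
          Nat.card {e : E // ∀ x ∈ ends e, x ∉ S}) : Built r k ℓ ends
  /-- (iv) robustly covered by perfect matchings with few disjoint nearly tight odd sets -/
  | robust {V E : Type} (ends : E → Sym2 V) (hG : Conn r ends) (hV : 2 * Nat.card V ≤ 2 ^ ℓ)
      (g D τ J : ℕ) (hg : 128 * k * ℓ ≤ g) (hgr : g ≤ r)
      (hD : 2 * Nat.card E ≤ r * Nat.card V + D)
      (hτ : ∀ 𝒩 : Finset (Set V), (∀ X ∈ 𝒩, Odd X.ncard ∧ 3 ≤ X.ncard ∧
          X.ncard + 3 ≤ Nat.card V ∧ leaving ends X < r + g) →
        (∀ X ∈ 𝒩, ∀ Y ∈ 𝒩, X ≠ Y → Disjoint X Y) → 𝒩.card ≤ τ)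
      (hJ : 2 * k * ℓ * (16 * D + (5 * τ + 3) * g) ≤ J * g)
      (hco : StaysCovered J ends) : Built r k ℓ ends
  /-- (v) spliced from two members along an odd cut -/
  | splice {V E : Type} (ends : E → Sym2 V) (hG : Conn r ends) (X : Set V) (hX : Odd X.ncard)
      (h1 : Built r k ℓ (contract ends X)) (h2 : Built r k ℓ (contract ends Xᶜ)) :
      Built r k ℓ ends

/-- Let `2 ≤ k ≤ 2 ^ ℓ` and `k ≤ r`.  Every multigraph in `𝒞` has `k` pairwise disjoint
perfect matchings; even more, any `k` distinct edges at a common vertex lie in `k` pairwise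
disjoint perfect matchings, one edge in each of them. -/
theorem result (r k ℓ : ℕ) (hk : 2 ≤ k) (hkℓ : k ≤ 2 ^ ℓ) (hkr : k ≤ r)
    {V E : Type} (ends : E → Sym2 V) (hG : Built r k ℓ ends) :
    (∃ M : Fin k → Finset E, (∀ i j, i ≠ j → Disjoint (M i) (M j)) ∧
      ∀ i, ∀ x : V, ∃! y : E, y ∈ M i ∧ x ∈ ends y) ∧
    ∀ (v : V) (e : Fin k → E), Function.Injective e → (∀ i, v ∈ ends (e i)) →
      ∃ M : Fin k → Finset E, (∀ i, e i ∈ M i) ∧ (∀ i j, i ≠ j → Disjoint (M i) (M j)) ∧
        ∀ i, ∀ x : V, ∃! y : E, y ∈ M i ∧ x ∈ ends y := by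
  have hstar : Pool.Agent.Lib.MP_6b611a_co.Star k ends := by
    induction hG with
    | @colourable V E ends hG c hc =>
      have := hG.finite_edges
      have := Fintype.ofFinite E
      exact Pool.Agent.Lib.MP_6b611a_co.star_colour ends c hc
    | expanding ends hG hreg hexp =>
      have := hG.finite_vertices
      have := hG.finite_edges
      exact Pool.Agent.Lib.MP_6b611a_co.tight_expand hk ends
        ⟨hG.finite_vertices, hG.finite_edges, hG.nonempty, hG.even, hG.loopless, hG.cuts⟩
        (fun v => (Pool.Agent.Lib.MP_6b611a_co.deg_lv ends hG.loopless v).symm.trans (hreg v)) hexp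
    | gap ends hG hV D hr hD hgap hloc =>
      exact Pool.Agent.Lib.MP_6b611a_co.gap_all hk ends
        ⟨hG.finite_vertices, hG.finite_edges, hG.nonempty, hG.even, hG.loopless, hG.cuts⟩
        hV hkℓ hr hD hgap hloc
    | robust ends hG hV g D τ J hg hgr hD hτ hJ hco =>
      have := hG.finite_vertices
      have := hG.finite_edges
      exact Pool.Agent.Lib.MP_6b611a_co.piece_robust ends hk hG.loopless hG.nonempty hG.even
        hG.cuts hV hkℓ hg hgr hJ hD hτ hco
    | splice ends hG X hX h1 h2 ih1 ih2 =>
      exact Pool.Agent.Lib.MP_6b611a_co.splice k ends X ih1 ih2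
  refine ⟨?_, hstar⟩
  have hconn : Conn r ends := by
    cases hG <;> assumption
  have := hconn.finite_vertices
  have := hconn.finite_edges
  exact Pool.Agent.Lib.MP_6b611a_co.matchings_of_star ends hkr hconn.nonempty hconn.even
    hconn.cuts hstar

end Pool.Agent.Results.MP_6b611a_co.Splices
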